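import Mathlib
import Pool.Agent.GCH.ASM

/-!
# An upper bound for the girth of graphs of chromatic number `k`, with base `c k log k`

Let `gk k n` be the largest girth of an `n`-vertex graph of chromatic number exactly `k`.  The
theorem of Erdős is `gk k n ≤ 2 log n / log (k - 2) + 1`; it comes from the fact that a graph on
less than `D ^ m` vertices of girth more than `2 m` has colouring number at most `D + 1`.

We prove that such a graph, with `m ≥ 4` and `D` large, even has chromatic number at most
`3002 D / log D`, with a constant that does not depend on `m` (files `Pool/Agent/GCH/`).  The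
maximum degree of the graph is not bounded in any way.

Outline of the proof.
* `NBW`, `DEG`: non-backtracking walks are determined by their ends; the graph is
  `D`-degenerate, so it has an order in which each vertex has at most `D` smaller neighbours.
* `EXL`, `PRO`, `ZST`: the vertices are processed in this order; every vertex `v` carries weights
  `Y_v(c)` of the colours (all `7/(8q)` at the beginning, with `q` about `1000 D / log D`), which are
  martingales: the vertex `z` takes colour `c` with probability `Y_z(c)` if `Y_z(c) ≤ κ`, and then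
  the later neighbours `v` replace `Y_v(c)` by `0`, or by `Y_v(c)/(1 - Y_z(c))` if `z` did not
  take `c`.  A vertex is good if the sum of its weights is near `7/8`, the expected loss is small
  and at most half of its smaller neighbours were left uncoloured.
* `PHI`: no randomness is used; the outcome at each vertex is chosen by the method of
  conditional expectations for the sum, over all non-backtracking walks of length `m` (there are
  at most `n ^ 2` of them), of the product of the potentials of every fifth vertex of the walk.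
  At the end the bad vertices span a forest, which needs two more colours.
* `NUM`, `ASM`: the parameters; about `log D` passes, each of which halves the number of
  uncoloured smaller neighbours.
-/

namespace Pool.Agent.Results.MP_6007ef_co.LogImprovedUpperBound

open SimpleGraph Pool.GCH

/-- `gk k n`: the largest `m` such that some graph on `n` vertices has chromatic number exactly
`k` and girth `m` (`0` if there is none). -/
noncomputable def gk (k n : ℕ) : ℕ :=
  sSup {m : ℕ | ∃ G : SimpleGraph (Fin n),
    G.chromaticNumber = (k : ℕ∞) ∧ G.egirth = (m : ℕ∞)}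

theorem exp_big : (200000 : ℝ) ^ 20 ≤ Real.exp 3100 := by
  have h1 : Real.exp 3100 = (Real.exp 155) ^ 20 := by
    rw [← Real.exp_nat_mul]
    norm_num
  have h2 : (200000 : ℝ) ≤ Real.exp 155 := by
    have h3 : Real.exp 155 = (Real.exp 1) ^ 155 := by
      rw [← Real.exp_nat_mul]
      norm_num
    have h4 : (2 : ℝ) ≤ Real.exp 1 := by
      have := Real.exp_one_gt_d9
      linarith
    rw [h3]
    calc (200000 : ℝ) ≤ 2 ^ 155 := by norm_num
      _ ≤ (Real.exp 1) ^ 155 := pow_le_pow_left₀ (by norm_num) h4 155
  rw [h1]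
  exact pow_le_pow_left₀ (by norm_num) h2 20

/-- The bound for one graph. -/
theorem girth_le (k n g : ℕ) (hk : Real.exp 3100 ≤ (k : ℝ)) (G : SimpleGraph (Fin n))
    (hG : G.chromaticNumber = (k : ℕ∞)) (hg : G.egirth = (g : ℕ∞)) :
    (g : ℝ) ≤ 2 * Real.log n / Real.log (k * Real.log k / 4000) + 8 := by
  have hk0 : (0 : ℝ) < k := lt_of_lt_of_le (Real.exp_pos _) hk
  have hlogk : 3100 ≤ Real.log k := by
    rw [Real.le_log_iff_exp_le hk0]
    exact hk
  have hk1 : (4000 : ℝ) ≤ k := by
    have h1 : (4000 : ℝ) ≤ 200000 ^ 20 := by norm_num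
    exact h1.trans (exp_big.trans hk)
  set b := (k : ℝ) * Real.log k / 4000 with hb
  have hb1 : 1 < b := by
    rw [hb, lt_div_iff₀ (by norm_num)]
    nlinarith
  have hlogb : 0 < Real.log b := Real.log_pos hb1
  have hlogn : 0 ≤ Real.log (n : ℝ) := Real.log_natCast_nonneg n
  have hpos : 0 ≤ 2 * Real.log n / Real.log b := by positivity
  rcases Nat.lt_or_ge g 9 with h9 | h9
  · have : (g : ℝ) ≤ 8 := by exact_mod_cast (by omega : g ≤ 8)
    linarith
  -- the number `D`
  set x := (k : ℝ) * Real.log k / 3003 with hx
  set D := ⌊x⌋₊ with hD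
  have hx0 : 0 ≤ x := by positivity
  have hDx : (D : ℝ) ≤ x := Nat.floor_le hx0
  have hxD : x < D + 1 := Nat.lt_floor_add_one x
  have hxk : (k : ℝ) + 1 ≤ x := by
    rw [hx, le_div_iff₀ (by norm_num)]
    nlinarith
  have hkD : (k : ℝ) ≤ D := by linarith
  have hbD : b ≤ D := by
    have h1 : b + 1 ≤ x := by
      rw [hb, hx]
      have : (4000 : ℝ) * 3100 ≤ k * Real.log k := mul_le_mul hk1 hlogk (by norm_num) hk0.le
      linarith
    linarith
  have hDbig : 200000 ^ 20 ≤ D := by
    have h1 : (200000 : ℝ) ^ 20 ≤ D := exp_big.trans (hk.trans hkD)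
    exact_mod_cast h1
  have hlogD : Real.log k ≤ Real.log D := Real.log_le_log hk0 hkD
  obtain ⟨m, hm4, hm1, hm2⟩ : ∃ m : ℕ, 4 ≤ m ∧ 2 * m + 1 ≤ g ∧ g ≤ 2 * m + 2 :=
    ⟨(g - 1) / 2, by omega, by omega, by omega⟩
  have hHG : HG G (2 * m) := by
    apply hg_of_egirth
    rw [hg]
    exact_mod_cast hm1
  have hnD : D ^ m ≤ n := by
    by_contra hcon
    push Not at hcon
    obtain ⟨k', hk', hcol⟩ := core D m hDbig hm4 G hHG (by rwa [Fintype.card_fin])
    have h1 : (k : ℕ∞) ≤ (k' : ℕ∞) := by
      rw [← hG]
      exact hcol.chromaticNumber_le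
    have h2 : (k : ℝ) ≤ k' := by exact_mod_cast h1
    have h3 : 3002 * (D : ℝ) / Real.log D ≤ 3002 * x / Real.log k := by
      apply div_le_div₀ (by positivity) (by linarith) (by linarith) hlogD
    have h4 : 3002 * x / Real.log k = 3002 / 3003 * k := by
      have : Real.log k ≠ 0 := by
        intro h
        linarith
      rw [hx]
      field_simp
    rw [h4] at h3
    linarith
  have hn1 : 0 < n := lt_of_lt_of_le (Nat.pow_pos (lt_of_lt_of_le (by norm_num) hDbig)) hnD
  have h5 : (m : ℝ) * Real.log b ≤ Real.log n := by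
    have h6 : (D : ℝ) ^ m ≤ n := by exact_mod_cast hnD
    have h7 : b ^ m ≤ (n : ℝ) := (pow_le_pow_left₀ (by linarith) hbD m).trans h6
    have h8 := Real.log_le_log (by positivity) h7
    rwa [Real.log_pow] at h8
  have h6 : (m : ℝ) ≤ Real.log n / Real.log b := by
    rw [le_div_iff₀ hlogb]
    exact h5
  have h7 : (g : ℝ) ≤ 2 * m + 2 := by exact_mod_cast hm2
  have h8 : 2 * Real.log n / Real.log b = 2 * (Real.log n / Real.log b) := by ring
  rw [h8]
  linarith

theorem gk_le (k n : ℕ) (hk : Real.exp 3100 ≤ (k : ℝ)) :
    (gk k n : ℝ) ≤ 2 * Real.log n / Real.log (k * Real.log k / 4000) + 8 := by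
  set A : Set ℕ := {m : ℕ | ∃ G : SimpleGraph (Fin n),
    G.chromaticNumber = (k : ℕ∞) ∧ G.egirth = (m : ℕ∞)} with hA
  have hall : ∀ g ∈ A, (g : ℝ) ≤ 2 * Real.log n / Real.log (k * Real.log k / 4000) + 8 := by
    rintro g ⟨G, h1, h2⟩
    exact girth_le k n g hk G h1 h2
  have hbdd : BddAbove A := by
    refine ⟨⌈2 * Real.log n / Real.log (k * Real.log k / 4000) + 8⌉₊, ?_⟩
    intro g hg
    have h1 := (hall g hg).trans (Nat.le_ceil _)
    exact_mod_cast h1
  rcases A.eq_empty_or_nonempty with h0 | h0
  · have h1 : gk k n = 0 := by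
      unfold gk
      rw [← hA, h0]
      simp
    rw [h1]
    have hk0 : (0 : ℝ) < k := lt_of_lt_of_le (Real.exp_pos _) hk
    have hlogk : 3100 ≤ Real.log k := by
      rw [Real.le_log_iff_exp_le hk0]
      exact hk
    have hk1 : (4000 : ℝ) ≤ k := by
      have h1 : (4000 : ℝ) ≤ 200000 ^ 20 := by norm_num
      exact h1.trans (exp_big.trans hk)
    have hb1 : 1 < (k : ℝ) * Real.log k / 4000 := by
      rw [lt_div_iff₀ (by norm_num)]
      nlinarith
    have hlogb := Real.log_pos hb1
    have hlogn : 0 ≤ Real.log (n : ℝ) := Real.log_natCast_nonneg n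
    push_cast
    positivity
  · exact hall _ (Nat.sSup_mem h0 hbdd)

/-- For `k ≥ e ^ 3100` and every `n`, the largest girth of an `n`-vertex graph of chromatic number
`k` is at most `2 log n / log (k log k / 4000) + 8`; in particular the upper limit of
`gk k n / log n` is at most `2 / log (k log k / 4000)`. -/
theorem result (k : ℕ) (hk : Real.exp 3100 ≤ (k : ℝ)) :
    (∀ n : ℕ, (gk k n : ℝ) ≤ 2 * Real.log n / Real.log (k * Real.log k / 4000) + 8) ∧
    Filter.limsup (fun n : ℕ => (gk k n : ℝ) / Real.log n) Filter.atTop ≤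
      2 / Real.log (k * Real.log k / 4000) := by
  refine ⟨fun n => gk_le k n hk, ?_⟩
  set b := (k : ℝ) * Real.log k / 4000 with hb
  have htend : Filter.Tendsto (fun n : ℕ => 2 / Real.log b + 8 / Real.log (n : ℝ)) Filter.atTop
      (nhds (2 / Real.log b)) := by
    have h1 : Filter.Tendsto (fun n : ℕ => Real.log (n : ℝ)) Filter.atTop Filter.atTop :=
      Real.tendsto_log_atTop.comp tendsto_natCast_atTop_atTop
    have h2 : Filter.Tendsto (fun n : ℕ => 8 / Real.log (n : ℝ)) Filter.atTop (nhds 0) :=
      h1.const_div_atTop 8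
    simpa using h2.const_add (2 / Real.log b)
  rw [← htend.limsup_eq]
  refine Filter.limsup_le_limsup ?_ ?_ htend.isBoundedUnder_le
  · filter_upwards [Filter.eventually_gt_atTop 1] with n hn
    have hlog : 0 < Real.log (n : ℝ) := Real.log_pos (by exact_mod_cast hn)
    have h1 := gk_le k n hk
    rw [div_le_iff₀ hlog, add_mul, div_mul_cancel₀ _ hlog.ne']
    calc (gk k n : ℝ) ≤ 2 * Real.log n / Real.log b + 8 := h1
      _ = 2 / Real.log b * Real.log n + 8 := by ring
  · refine Filter.isCoboundedUnder_le_of_le Filter.atTop (x := 0) fun n => ?_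
    exact div_nonneg (Nat.cast_nonneg _) (Real.log_natCast_nonneg n)

end Pool.Agent.Results.MP_6007ef_co.LogImprovedUpperBound
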